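import Mathlib
import Pool.Agent.T9h47.SE.HNDef

/-!
# How much a circuit breaks a group of sign changes: definitions
-/

set_option autoImplicit false

namespace Pool.Agent.T9h47.SY

open Pool.Agent.T9h47.SC Pool.Agent.T9h47.SE

/-- Change the signs of the unknowns `z v` with `f v = 1` in all polynomials. -/
noncomputable def chg {K : Type} [Field K] {M N : ℕ} (f : Fin N → ZMod 2)
    (P : Fin M → MvPolynomial (Fin N) K) (q : Fin M) : MvPolynomial (Fin N) K :=
  MvPolynomial.bind₁ (fun v => MvPolynomial.C (sg K (f v)) * MvPolynomial.X v) (P q)

/-- What the gate `g` sees on the input `x`: its own value and, for each role `r`, the multiset of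
the values of its children in the role `r`. -/
noncomputable def view {K I : Type} (C : Circuit K I) (g : C.Gate) (x : I → K) :
    K × (ℕ → Multiset K) :=
  (C.val x g, fun r => ((C.kids g).filter (fun p => p.1 = r)).val.map (fun p => C.val x p.2))

/-- The views of the gates of `C` after sign changes: all functions `P ↦ view g (f P)` on the
systems `P` of degree at most `d`, where `g` is a gate and `f` is in the group `G`. -/
noncomputable def views {K : Type} [Field K] {M N : ℕ} (G : AddSubgroup (Fin N → ZMod 2))
    (C : Circuit K (Coord M N)) (d : ℕ) :
    Set ({P : Fin M → MvPolynomial (Fin N) K // ∀ q, (P q).totalDegree ≤ d} →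
      K × (ℕ → Multiset K)) :=
  {L | ∃ g, ∃ f ∈ G, L = fun P => view C g (coefs (chg f P.1))}

end Pool.Agent.T9h47.SY
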