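import Mathlib
import Pool.Agent.T9h47.SE.Pair4
import Pool.Agent.T9h47.SX.Defs
import Pool.Agent.T9h47.SX.Count
import Pool.Agent.T9h47.SX.Multi

/-!
# Views of gates on instances with an action of a group of vectors
-/

set_option autoImplicit false
set_option linter.unusedSectionVars false

namespace Pool.Agent.T9h47.SY

open Finset
open Pool.Agent.T9h47.SC Pool.Agent.T9h47.SE Pool.Agent.T9h47.SX

/-- an action of the vectors on the instances -/
structure VAct (n : ℕ) (X : Type) where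
  /-- the action -/
  a : (Fin n → ZMod 2) → X → X
  /-- zero -/
  zero : a 0 = id
  /-- sums -/
  add : ∀ f f', a (f + f') = a f ∘ a f'

theorem VAct.self {n : ℕ} {X : Type} (A : VAct n X) (f : Fin n → ZMod 2) : A.a f ∘ A.a f = id := by
  rw [← A.add, vec_self, A.zero]

theorem VAct.comm {n : ℕ} {X : Type} (A : VAct n X) (f f' : Fin n → ZMod 2) :
    A.a f ∘ A.a f' = A.a f' ∘ A.a f := by
  rw [← A.add, ← A.add, add_comm]

section stab

variable {n N : ℕ} {X T : Type} (A : VAct n X) (G : AddSubgroup (Fin n → ZMod 2))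
  (e : Fin N ↪ Fin n)

/-- the vectors on the chosen coordinates which extend to an element of `G` that does not change
the function -/
def ZA (L : X → T) : Submodule (ZMod 2) (Fin N → ZMod 2) where
  carrier := {t | ∃ f ∈ G, (fun v => f (e v)) = t ∧ L ∘ A.a f = L}
  zero_mem' := ⟨0, G.zero_mem, rfl, by rw [A.zero, Function.comp_id]⟩
  add_mem' := by
    rintro t t' ⟨f, hf, rfl, h⟩ ⟨f', hf', rfl, h'⟩
    refine ⟨f + f', G.add_mem hf hf', rfl, ?_⟩
    rw [A.add, ← Function.comp_assoc, h, h']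
  smul_mem' := by
    rintro c t ⟨f, hf, rfl, h⟩
    rcases z2_cases c with rfl | rfl
    · exact ⟨0, G.zero_mem, by rw [zero_smul]; rfl, by rw [A.zero, Function.comp_id]⟩
    · exact ⟨f, hf, by rw [one_smul], h⟩

theorem mem_ZA {L : X → T} {t : Fin N → ZMod 2} :
    t ∈ ZA A G e L ↔ ∃ f ∈ G, (fun v => f (e v)) = t ∧ L ∘ A.a f = L := Iff.rfl

theorem ZA_sh (L : X → T) (f : Fin n → ZMod 2) : ZA A G e (L ∘ A.a f) = ZA A G e L := by
  have key : ∀ (L : X → T) (f : Fin n → ZMod 2), ZA A G e L ≤ ZA A G e (L ∘ A.a f) := by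
    intro L f t ht
    rw [mem_ZA] at ht ⊢
    obtain ⟨f', hf', h1, h2⟩ := ht
    refine ⟨f', hf', h1, ?_⟩
    rw [Function.comp_assoc, A.comm, ← Function.comp_assoc, h2]
  refine le_antisymm ?_ (key L f)
  have h := key (L ∘ A.a f) f
  rwa [Function.comp_assoc, A.self, Function.comp_id] at h

theorem card_ZA (hlift : ∀ t : Fin N → ZMod 2, ∃ f ∈ G, (fun v => f (e v)) = t)
    [DecidableEq (X → T)] (F : Finset (X → T)) (hF : ∀ L ∈ F, ∀ f ∈ G, L ∘ A.a f ∈ F) (L : X → T)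
    (hL : L ∈ F) :
    Nat.card (perp (ZA A G e L)) ≤ (open Classical in
      (F.filter (fun L' => ZA A G e L' = ZA A G e L)).card) := by
  classical
  choose lf hlf1 hlf2 using hlift
  have hZpos : 0 < Nat.card (ZA A G e L) := Nat.card_pos
  have h1 : Fintype.card (Fin N → ZMod 2) ≤
      (F.filter (fun L' => ZA A G e L' = ZA A G e L)).card * Nat.card (ZA A G e L) := by
    have h2 := card_le_mul_card_image_of_maps_to (s := (univ : Finset (Fin N → ZMod 2)))
      (t := F.filter (fun L' => ZA A G e L' = ZA A G e L))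
      (f := fun t => L ∘ A.a (lf t)) (by
        intro t _
        rw [mem_filter]
        exact ⟨hF L hL _ (hlf1 t), ZA_sh A G e L (lf t)⟩) (Nat.card (ZA A G e L)) (by
        intro L' _
        by_cases hne : (univ.filter (fun t => L ∘ A.a (lf t) = L')).Nonempty
        · obtain ⟨t₀, ht₀⟩ := hne
          rw [mem_filter] at ht₀
          have h5 : (univ.filter (fun t => L ∘ A.a (lf t) = L')).card =
              Nat.card (univ.filter (fun t => L ∘ A.a (lf t) = L')) := by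
            rw [Nat.card_eq_fintype_card, Fintype.card_coe]
          rw [h5]
          refine Nat.card_le_card_of_injective
            (fun t => (⟨t.1 + t₀, lf t.1 + lf t₀, G.add_mem (hlf1 _) (hlf1 _), ?_, ?_⟩ :
              ZA A G e L)) ?_
          · rw [← hlf2 t.1, ← hlf2 t₀]
            rw [hlf2 t.1, hlf2 t₀]
            funext v
            show lf t.1 (e v) + lf t₀ (e v) = t.1 v + t₀ v
            rw [← congrFun (hlf2 t.1) v, ← congrFun (hlf2 t₀) v]
          · have h6 := (mem_filter.1 t.2).2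
            rw [A.add, ← Function.comp_assoc, h6, ← ht₀.2, Function.comp_assoc, A.self,
              Function.comp_id]
          · intro t t' htt
            have h6 : t.1 + t₀ = t'.1 + t₀ := congrArg Subtype.val htt
            exact Subtype.ext (add_right_cancel h6)
        · rw [not_nonempty_iff_eq_empty] at hne
          rw [hne, card_empty]
          exact Nat.zero_le _)
    rw [card_univ] at h2
    rw [mul_comm]
    exact h2
  have h3 := card_perp (ZA A G e L)
  have h4 : Fintype.card (Fin N → ZMod 2) = 2 ^ Fintype.card (Fin N) := by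
    rw [Fintype.card_fun, ZMod.card]
  rw [← h4] at h3
  exact Nat.le_of_mul_le_mul_right (h3.trans h1) hZpos

theorem sum_ZA (hlift : ∀ t : Fin N → ZMod 2, ∃ f ∈ G, (fun v => f (e v)) = t)
    [DecidableEq (X → T)] (F : Finset (X → T)) (hF : ∀ L ∈ F, ∀ f ∈ G, L ∘ A.a f ∈ F) :
    (open Classical in (∑ Z ∈ F.image (ZA A G e), Nat.card (perp Z))) ≤ F.card := by
  classical
  rw [card_eq_sum_card_image (ZA A G e) F]
  refine sum_le_sum fun Z hZ => ?_
  rw [mem_image] at hZ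
  obtain ⟨L, hL, rfl⟩ := hZ
  exact card_ZA A G e hlift F hF L hL

end stab

section circ

variable {n N : ℕ} {X I K : Type} {V : Type} [Fintype V] [DecidableEq V]
  (A : VAct n X) (G : AddSubgroup (Fin n → ZMod 2)) (e : Fin N ↪ Fin n) (ip : X → I → K)
  (C : Circuit K I)

/-- the view of a gate -/
noncomputable def vi (g : C.Gate) (x : X) : K × (ℕ → Multiset K) := view C g (ip x)

/-- The views of the gates after the action of `G`. -/
def viewsA : Set (X → K × (ℕ → Multiset K)) :=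
  {L | ∃ g, ∃ f ∈ G, L = vi ip C g ∘ A.a f}

/-- the elements of `G` which do not change the view of a gate -/
def SA (g : C.Gate) : AddSubgroup G where
  carrier := {f | vi ip C g ∘ A.a f.1 = vi ip C g}
  zero_mem' := by
    show vi ip C g ∘ A.a (0 : Fin n → ZMod 2) = vi ip C g
    rw [A.zero, Function.comp_id]
  add_mem' := by
    intro f f' h h'
    show vi ip C g ∘ A.a (f.1 + f'.1) = vi ip C g
    have h1 : vi ip C g ∘ A.a f.1 = vi ip C g := h
    have h2 : vi ip C g ∘ A.a f'.1 = vi ip C g := h'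
    rw [A.add, ← Function.comp_assoc, h1, h2]
  neg_mem' := by
    intro f h
    show vi ip C g ∘ A.a (-f.1) = vi ip C g
    have h1 : -f.1 = f.1 := by
      funext i
      show -(f.1 i) = f.1 i
      have : ∀ a : ZMod 2, -a = a := by decide
      exact this _
    rw [h1]
    exact h

/-- the inputs -/
def yA (S : (V → ZMod 2) → X) (f : G) (c : V → ZMod 2) : I → K := ip (A.a f.1 (S c))

/-- the values for good right hand sides -/
theorem val_yA (R : V → Finset (Fin N)) (hone : tr R (fun _ => 1) = 0)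
    (hV : 2 ≤ Fintype.card V) (S : (V → ZMod 2) → X)
    (hS : ∀ f c, A.a f (S c) = S (c + AA R (fun v => f (e v))))
    (hloc : ∀ c f₁ i, ip (A.a f₁ (S c)) i ≠ ip (A.a f₁ (S 0)) i → ∃ j, c j ≠ 0 ∧
      ∀ f, (∀ x, ip (A.a f x) i = ip x i) → AA R (fun v => f (e v)) j = 0)
    (hSep : ∀ g, Sep2 R (perp (ZA A G e (vi ip C g)))) (g : C.Gate) (f₁ : G) (c : V → ZMod 2)
    (hc : Good R (ZA A G e (vi ip C g)) c) :
    C.val (yA A G ip S f₁ c) g = C.val (yA A G ip S f₁ 0) g := by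
  classical
  have hG : Finite G := inferInstance
  let _ : Fintype G := Fintype.ofFinite G
  refine same_val_multi R C hone (fun (f : G) v => f.1 (e v)) (yA A G ip S)
    ?_ (SA A G ip C) (fun g => ZA A G e (vi ip C g))
    ?_ ?_ ?_ hSep (C.rank g + 1) g (Nat.lt_succ_self _) f₁ c hc
  · intro f f' c
    unfold yA
    have h : (f + f').1 = f.1 + f'.1 := rfl
    rw [h, A.add, Function.comp_apply, hS]
  · intro g t ht
    obtain ⟨f, hf, h1, h2⟩ := (mem_ZA A G e).1 ht
    exact ⟨⟨f, hf⟩, h2, h1⟩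
  · intro g f hf f₁ c r
    have h1 : vi ip C g ∘ A.a f.1 = vi ip C g := hf
    have h2 := congrFun h1 (A.a f₁.1 (S c))
    have h3 := congrFun (congrArg Prod.snd h2) r
    show vals C g (ip (A.a (f.1 + f₁.1) (S c))) r = vals C g (ip (A.a f₁.1 (S c))) r
    rw [A.add]
    exact h3
  · intro g i hl f₁ c hg
    by_contra hne
    obtain ⟨j, hcj, hj⟩ := hloc c f₁.1 i hne
    apply hcj
    have h1 : tr R (Pi.single j 1) ∈ perp (ZA A G e (vi ip C g)) := by
      intro t ht
      obtain ⟨f, hf, h2, h3⟩ := (mem_ZA A G e).1 ht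
      rw [← adj, dot_single, AA_apply]
      have h5 := hj f (fun x => by
        have h4 : C.val (ip (A.a f x)) g = C.val (ip x) g := congrArg Prod.fst (congrFun h3 x)
        rwa [C.val_inl _ g i hl, C.val_inl _ g i hl] at h4)
      rw [AA_apply, h2] at h5
      exact h5
    have h2 := hg _ h1
    rw [dot_single] at h2
    rw [h2]
    unfold phi
    rw [wt_single, if_pos (by omega)]

/-- for good graphs the numbers of accepted instances are equal -/
theorem card_yA (hlift : ∀ t : Fin N → ZMod 2, ∃ f ∈ G, (fun v => f (e v)) = t)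
    (R : V → Finset (Fin N)) (hone : tr R (fun _ => 1) = 0)
    (hV : 2 ≤ Fintype.card V) (S : (V → ZMod 2) → X)
    (hS : ∀ f c, A.a f (S c) = S (c + AA R (fun v => f (e v))))
    (hloc : ∀ c f₁ i, ip (A.a f₁ (S c)) i ≠ ip (A.a f₁ (S 0)) i → ∃ j, c j ≠ 0 ∧
      ∀ f, (∀ x, ip (A.a f x) i = ip x i) → AA R (fun v => f (e v)) j = 0)
    (hSep : ∀ g, Sep2 R (perp (ZA A G e (vi ip C g)))) (Acc : Set K) (c : V → ZMod 2)
    (hc : Good R ⊤ c) :
    Nat.card {f : G // C.val (yA A G ip S f c) C.out ∈ Acc} =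
      Nat.card {f : G // C.val (yA A G ip S f 0) C.out ∈ Acc} := by
  obtain ⟨c', hc'⟩ := exists_good2 R hone _ (hSep C.out)
  obtain ⟨t, _, ht⟩ := good_diff R hc (good_mono R le_top hc')
  obtain ⟨f₀, hf₀, hft⟩ := hlift t
  have h1 : ∀ f : G, C.val (yA A G ip S f c) C.out =
      C.val (yA A G ip S (f + ⟨f₀, hf₀⟩) 0) C.out := by
    intro f
    rw [← val_yA A G e ip C R hone hV S hS hloc hSep C.out (f + ⟨f₀, hf₀⟩) c' hc', ht]
    have h2 : (fun v => f₀ (e v)) = t := hft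
    unfold yA
    have h : (f + ⟨f₀, hf₀⟩ : G).1 = f.1 + f₀ := rfl
    rw [h, A.add, Function.comp_apply, hS f₀, h2, add_assoc, vec_self, add_zero]
  refine Nat.card_congr ((Equiv.addRight (⟨f₀, hf₀⟩ : G)).subtypeEquiv ?_)
  intro f
  rw [h1 f]
  rfl

end circ

section adv

/-- **The advantage on random instances**, for systems of linear equations on random regular
multigraphs. -/
theorem gen_adv {n k μ : ℕ} (hμ0 : 0 < μ) (G : AddSubgroup (Fin n → ZMod 2))
    (e : Fin (μ * k) ↪ Fin n)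
    (hlift : ∀ t : Fin (μ * k) → ZMod 2, ∃ f ∈ G, (fun v => f (e v)) = t)
    (blk : Fin (μ * k) × Bool → Fin (2 * μ))
    (hblk : ∀ v, (univ.filter (fun x => blk x = v)).card = k) (j₀ : Fin (2 * μ))
    {X I K : Type} (A : VAct n X) (ip : X → I → K)
    (S : Equiv.Perm (Fin (μ * k) × Bool) → (Fin (2 * μ) → ZMod 2) → X)
    (hS : ∀ π f c, A.a f (S π c) = S π (c + AA (RG blk π) (fun v => f (e v))))
    (hloc : ∀ π c f₁ i, ip (A.a f₁ (S π c)) i ≠ ip (A.a f₁ (S π 0)) i → ∃ j, c j ≠ 0 ∧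
      ∀ f, (∀ x, ip (A.a f x) i = ip x i) → AA (RG blk π) (fun v => f (e v)) j = 0)
    (C : Circuit K I) (Acc : Set K) :
    ∃ B : ℕ, (B : ℝ) * 2 ^ (μ * k) ≤ 4 * (2 : ℝ) ^ (29 / 10 * μ : ℝ) *
        (Real.exp 1 * (2 * ((μ * k : ℕ) : ℝ) + 1)) ^ 4 * (2 * (μ * k)).factorial *
        ((viewsA A G ip C).ncard : ℝ) ∧
      |(Nat.card {ω : Equiv.Perm (Fin (μ * k) × Bool) × G //
          C.val (ip (A.a ω.2.1 (S ω.1 0))) C.out ∈ Acc} : ℝ) -
        (Nat.card {ω : Equiv.Perm (Fin (μ * k) × Bool) × G //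
          C.val (ip (A.a ω.2.1 (S ω.1 (cRG blk j₀ ω.1)))) C.out ∈ Acc} : ℝ)| ≤
        (B : ℝ) * Nat.card G := by
  classical
  have hVμ : Fintype.card (Fin (2 * μ)) = 2 * μ := Fintype.card_fin _
  have hV2 : 2 ≤ Fintype.card (Fin (2 * μ)) := by rw [hVμ]; omega
  have hone : ∀ π : Equiv.Perm (Fin (μ * k) × Bool), tr (RG blk π) (fun _ => 1) = 0 :=
    fun π => tr_RG_one blk π
  have hGfin : Finite G := inferInstance
  let _ : Fintype G := Fintype.ofFinite G
  let _ := C.fin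
  -- the views as a finite set
  obtain ⟨F, hF⟩ : ∃ F : Finset (X → K × (ℕ → Multiset K)),
      F = univ.image (fun p : C.Gate × G => vi ip C p.1 ∘ A.a p.2.1) := ⟨_, rfl⟩
  have hFv : viewsA A G ip C = ↑F := by
    unfold viewsA
    rw [hF]
    ext L
    rw [coe_image, Set.mem_image]
    constructor
    · rintro ⟨g, f, hf, rfl⟩
      exact ⟨(g, ⟨f, hf⟩), mem_coe.2 (mem_univ _), rfl⟩
    · rintro ⟨p, _, rfl⟩
      exact ⟨p.1, p.2.1, p.2.2, rfl⟩
  have hFcl : ∀ L ∈ F, ∀ f ∈ G, L ∘ A.a f ∈ F := by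
    intro L hL f hf
    rw [hF, mem_image] at hL ⊢
    obtain ⟨p, _, rfl⟩ := hL
    refine ⟨(p.1, p.2 + ⟨f, hf⟩), mem_univ _, ?_⟩
    show vi ip C p.1 ∘ A.a (p.2.1 + f) = (vi ip C p.1 ∘ A.a p.2.1) ∘ A.a f
    rw [A.add, Function.comp_assoc]
  rw [hFv, Set.ncard_coe_finset]
  obtain ⟨Γ, hΓ⟩ : ∃ Γ : Finset (Submodule (ZMod 2) (Fin (μ * k) → ZMod 2)),
      Γ = F.image (ZA A G e) := ⟨_, rfl⟩
  have hsum : ((∑ Z : {Z // Z ∈ Γ}, Nat.card (perp Z.1) : ℕ) : ℝ) ≤ (F.card : ℝ) := by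
    have h1 : (∑ Z : {Z // Z ∈ Γ}, Nat.card (perp Z.1)) = ∑ Z ∈ Γ, Nat.card (perp Z) :=
      sum_coe_sort Γ (fun Z => Nat.card (perp Z))
    have h2 := sum_ZA A G e hlift F hFcl
    rw [h1, hΓ]
    exact_mod_cast h2
  have hcount := count_bad blk hblk μ hμ0 hVμ (fun Z : {Z // Z ∈ Γ} => Z.1) (F.card : ℝ)
    (Nat.cast_nonneg _) hsum
  obtain ⟨B, hB⟩ : ∃ B : ℕ, B = Nat.card {π : Equiv.Perm (Fin (μ * k) × Bool) //
      ¬ ∀ Z : {Z // Z ∈ Γ}, Sep2 (RG blk π) (perp Z.1)} := ⟨_, rfl⟩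
  rw [← hB] at hcount
  refine ⟨B, hcount, ?_⟩
  -- good graphs
  have hgood : ∀ π : Equiv.Perm (Fin (μ * k) × Bool),
      (∀ Z : {Z // Z ∈ Γ}, Sep2 (RG blk π) (perp Z.1)) →
      Nat.card {f : G // C.val (yA A G ip (S π) f (cRG blk j₀ π)) C.out ∈ Acc} =
        Nat.card {f : G // C.val (yA A G ip (S π) f 0) C.out ∈ Acc} := by
    intro π hπ
    have hSep : ∀ g, Sep2 (RG blk π) (perp (ZA A G e (vi ip C g))) := by
      intro g
      refine hπ ⟨ZA A G e (vi ip C g), ?_⟩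
      rw [hΓ]
      refine mem_image_of_mem _ ?_
      rw [hF, mem_image]
      refine ⟨(g, 0), mem_univ _, ?_⟩
      show vi ip C g ∘ A.a (0 : Fin n → ZMod 2) = _
      rw [A.zero, Function.comp_id]
    have hgd : ∃ c, Good (RG blk π) ⊤ c := by
      obtain ⟨c', hc'⟩ := exists_good2 _ (hone π) _ (hSep C.out)
      exact ⟨c', good_mono _ le_top hc'⟩
    exact card_yA A G e ip C hlift (RG blk π) (hone π) hV2 (S π) (hS π) (hloc π) hSep Acc _
      (cRG_good blk j₀ π hgd)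
  -- sums over the graphs
  have hsplit : ∀ P : Equiv.Perm (Fin (μ * k) × Bool) × G → Prop,
      Nat.card {ω // P ω} = ∑ π, Nat.card {f : G // P (π, f)} := by
    intro P
    rw [Nat.card_congr (Equiv.subtypeProdEquivSigmaSubtype (fun π f => P (π, f))), Nat.card_sigma]
  obtain ⟨A0, hA0⟩ : ∃ A0 : Equiv.Perm (Fin (μ * k) × Bool) → ℕ, A0 = fun π =>
    Nat.card {f : G // C.val (yA A G ip (S π) f 0) C.out ∈ Acc} := ⟨_, rfl⟩
  obtain ⟨A1, hA1⟩ : ∃ A1 : Equiv.Perm (Fin (μ * k) × Bool) → ℕ, A1 = fun π =>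
    Nat.card {f : G // C.val (yA A G ip (S π) f (cRG blk j₀ π)) C.out ∈ Acc} :=
    ⟨_, rfl⟩
  have e0 : Nat.card {ω : Equiv.Perm (Fin (μ * k) × Bool) × G //
      C.val (ip (A.a ω.2.1 (S ω.1 0))) C.out ∈ Acc} = ∑ π, A0 π := by
    rw [hsplit, hA0]
    rfl
  have e1 : Nat.card {ω : Equiv.Perm (Fin (μ * k) × Bool) × G //
      C.val (ip (A.a ω.2.1 (S ω.1 (cRG blk j₀ ω.1)))) C.out ∈ Acc} =
      ∑ π, A1 π := by
    rw [hsplit, hA1]
    rfl
  rw [e0, e1]
  have h1 : ∀ π, |(A0 π : ℝ) - (A1 π : ℝ)| ≤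
      if ¬ ∀ Z : {Z // Z ∈ Γ}, Sep2 (RG blk π) (perp Z.1) then (Nat.card G : ℝ) else 0 := by
    intro π
    by_cases h : ∀ Z : {Z // Z ∈ Γ}, Sep2 (RG blk π) (perp Z.1)
    · rw [if_neg (not_not.2 h)]
      have h2 : A1 π = A0 π := by
        rw [hA0, hA1]
        exact hgood π h
      rw [h2, sub_self, abs_zero]
    · rw [if_pos h]
      have h2 : ∀ P : G → Prop, (Nat.card {f : G // P f} : ℝ) ≤ Nat.card G := by
        intro P
        rw [Nat.card_eq_fintype_card, Nat.card_eq_fintype_card]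
        exact_mod_cast Fintype.card_subtype_le P
      have h3 : (A0 π : ℝ) ≤ Nat.card G := by rw [hA0]; exact h2 _
      have h4 : (A1 π : ℝ) ≤ Nat.card G := by rw [hA1]; exact h2 _
      have h5 : (0 : ℝ) ≤ A0 π := Nat.cast_nonneg _
      have h6 : (0 : ℝ) ≤ A1 π := Nat.cast_nonneg _
      rw [abs_le]
      constructor <;> linarith
  calc |((∑ π, A0 π : ℕ) : ℝ) - ((∑ π, A1 π : ℕ) : ℝ)| = |∑ π, ((A0 π : ℝ) - (A1 π : ℝ))| := by
        push_cast
        rw [sum_sub_distrib]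
    _ ≤ ∑ π, |(A0 π : ℝ) - (A1 π : ℝ)| := abs_sum_le_sum_abs _ _
    _ ≤ ∑ π, if ¬ ∀ Z : {Z // Z ∈ Γ}, Sep2 (RG blk π) (perp Z.1) then
        (Nat.card G : ℝ) else 0 := sum_le_sum fun π _ => h1 π
    _ = (B : ℝ) * Nat.card G := by
        have h7 : B = (univ.filter (fun π : Equiv.Perm (Fin (μ * k) × Bool) =>
            ¬ ∀ Z : {Z // Z ∈ Γ}, Sep2 (RG blk π) (perp Z.1))).card := by
          rw [hB, Nat.card_eq_fintype_card, Fintype.card_subtype]
        rw [← sum_filter, sum_const, nsmul_eq_mul, h7]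

end adv

end Pool.Agent.T9h47.SY
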