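import Mathlib
import Pool.Agent.T9h47.SY.Gen
import Pool.Agent.T9h47.SY.Defs
import Pool.Agent.T9h47.SE.HN

/-!
# Systems of polynomial equations and sign changes: all circuits
-/

set_option autoImplicit false
set_option linter.unusedSectionVars false

namespace Pool.Agent.T9h47.SY

open Finset
open Pool.Agent.T9h47.SC Pool.Agent.T9h47.SE

section chg

variable {K : Type} [Field K] {M N : ℕ}

theorem sg_mul_self (a : ZMod 2) : sg K a * sg K a = 1 := by
  rw [← sg_add, z2_self, sg_zero]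

theorem sg_nat_mul (u : ℕ) (a : ZMod 2) : sg K ((u : ZMod 2) * a) = sg K a ^ u := by
  induction u with
  | zero => rw [Nat.cast_zero, zero_mul, sg_zero, pow_zero]
  | succ u ih => rw [Nat.cast_succ, add_mul, one_mul, sg_add, ih, pow_succ]

theorem coeff_chg (f : Fin N → ZMod 2) (P : Fin M → MvPolynomial (Fin N) K) (q : Fin M)
    (m : Fin N →₀ ℕ) : (chg f P q).coeff m =
      sg K (∑ v, ((m v : ℕ) : ZMod 2) * f v) * (P q).coeff m := by
  unfold chg
  induction P q using MvPolynomial.induction_on' with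
  | monomial u a =>
    have h1 : MvPolynomial.bind₁ (fun v => MvPolynomial.C (sg K (f v)) * MvPolynomial.X v)
        (MvPolynomial.monomial u a) =
        MvPolynomial.monomial u (sg K (∑ v, ((u v : ℕ) : ZMod 2) * f v) * a) := by
      rw [MvPolynomial.bind₁_monomial]
      have h2 : ∏ i ∈ u.support, (MvPolynomial.C (sg K (f i)) * MvPolynomial.X i :
          MvPolynomial (Fin N) K) ^ u i =
          MvPolynomial.C (sg K (∑ v, ((u v : ℕ) : ZMod 2) * f v)) *
            ∏ i ∈ u.support, (MvPolynomial.X i : MvPolynomial (Fin N) K) ^ u i := by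
        have h3 : sg K (∑ v, ((u v : ℕ) : ZMod 2) * f v) = ∏ i ∈ u.support, sg K (f i) ^ u i := by
          rw [sg_sum]
          rw [← Finset.prod_subset (Finset.subset_univ u.support)]
          · exact prod_congr rfl fun i _ => sg_nat_mul _ _
          · intro i _ hi
            rw [Finsupp.notMem_support_iff.1 hi, Nat.cast_zero, zero_mul, sg_zero]
        rw [h3, map_prod, ← prod_mul_distrib]
        refine prod_congr rfl fun i _ => ?_
        rw [mul_pow, map_pow]
      rw [h2, ← mul_assoc, ← map_mul, mul_comm a]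
      rw [MvPolynomial.monomial_eq]
      rfl
    rw [h1, MvPolynomial.coeff_monomial, MvPolynomial.coeff_monomial]
    by_cases hm : u = m
    · rw [if_pos hm, if_pos hm, hm]
    · rw [if_neg hm, if_neg hm, mul_zero]
  | add p q hp hq => rw [map_add, MvPolynomial.coeff_add, MvPolynomial.coeff_add, hp, hq, mul_add]

theorem chg_zero (P : Fin M → MvPolynomial (Fin N) K) : chg 0 P = P := by
  funext q
  ext m
  rw [coeff_chg]
  have h : ∑ v, ((m v : ℕ) : ZMod 2) * (0 : Fin N → ZMod 2) v = 0 :=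
    sum_eq_zero fun v _ => mul_zero _
  rw [h, sg_zero, one_mul]

theorem chg_add (f f' : Fin N → ZMod 2) (P : Fin M → MvPolynomial (Fin N) K) :
    chg (f + f') P = chg f (chg f' P) := by
  funext q
  ext m
  rw [coeff_chg, coeff_chg, coeff_chg, ← mul_assoc, ← sg_add]
  congr 2
  rw [← sum_add_distrib]
  exact sum_congr rfl fun v _ => mul_add _ _ _

theorem chg_degree (f : Fin N → ZMod 2) (P : Fin M → MvPolynomial (Fin N) K) (q : Fin M) :
    (chg f P q).totalDegree ≤ (P q).totalDegree := by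
  apply MvPolynomial.totalDegree_le_of_support_subset
  intro m hm
  rw [MvPolynomial.mem_support_iff] at hm ⊢
  intro h
  apply hm
  rw [coeff_chg, h, mul_zero]

theorem coefs_chg (f : Fin N → ZMod 2) (P : Fin M → MvPolynomial (Fin N) K) (i : Coord M N) :
    coefs (chg f P) i = coefs P (signs f i) := by
  rcases i with ⟨q, m, s⟩
  show sg K s * (chg f P q).coeff m =
    sg K (s + ∑ v, ((m v : ℕ) : ZMod 2) * f v) * (P q).coeff m
  rw [coeff_chg, sg_add, mul_assoc]

theorem aeval_chg {A : Type} [CommRing A] [Algebra K A] (f : Fin N → ZMod 2)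
    (P : Fin M → MvPolynomial (Fin N) K) (q : Fin M) (z : Fin N → A) :
    MvPolynomial.aeval z (chg f P q) = MvPolynomial.aeval (fun v => sg A (f v) * z v) (P q) := by
  unfold chg
  rw [MvPolynomial.aeval_bind₁]
  have h : (fun i => MvPolynomial.aeval z (MvPolynomial.C (sg K (f i)) * MvPolynomial.X i :
      MvPolynomial (Fin N) K)) = fun v => sg A (f v) * z v := by
    funext v
    rw [map_mul, MvPolynomial.aeval_C, MvPolynomial.aeval_X, map_sg]
  rw [h]

/-- the action on systems of bounded degree -/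
noncomputable def pact (K : Type) [Field K] (M N d : ℕ) :
    VAct N {P : Fin M → MvPolynomial (Fin N) K // ∀ q, (P q).totalDegree ≤ d} where
  a f P := ⟨chg f P.1, fun q => (chg_degree f P.1 q).trans (P.2 q)⟩
  zero := by
    funext P
    exact Subtype.ext (chg_zero P.1)
  add f f' := by
    funext P
    exact Subtype.ext (chg_add f f' P.1)

end chg

section system

variable {K : Type} [Field K] {M N h : ℕ} (e : Fin h ↪ Fin N) {V : Type} [Fintype V]
  [DecidableEq V] (ι : V ⊕ Fin h ↪ Fin M) (R : V → Finset (Fin h))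

theorem chg_psys (c : V → ZMod 2) (f : Fin N → ZMod 2) :
    chg f (psys (K := K) e ι R c) = psys e ι R (c + AA R (fun v => f (e v))) := by
  funext q
  ext m
  rw [coeff_chg]
  by_cases hq : ∃ p, ι p = q
  · obtain ⟨p, rfl⟩ := hq
    rw [psys_apply, psys_apply, ← eqn_flip (K := K) e R c f p m, ← mul_assoc, sg_mul_self,
      one_mul]
  · rw [psys_not e ι R _ q hq, psys_not e ι R _ q hq, MvPolynomial.coeff_zero, mul_zero]

/-- where the systems differ -/
theorem psys_ne (c : V → ZMod 2) (q : Fin M) (m : Fin N →₀ ℕ)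
    (hne : (psys (K := K) e ι R c q).coeff m ≠ (psys (K := K) e ι R 0 q).coeff m) :
    ∃ j, c j ≠ 0 ∧ rowm e R j = m := by
  by_cases hq : ∃ p, ι p = q
  · obtain ⟨p, rfl⟩ := hq
    rw [psys_apply, psys_apply] at hne
    rcases p with j | v
    · refine ⟨j, ?_, ?_⟩
      · intro hc
        apply hne
        show MvPolynomial.coeff m (MvPolynomial.monomial (rowm e R j) (sg K (c j)) - 1) =
          MvPolynomial.coeff m (MvPolynomial.monomial (rowm e R j)
            (sg K ((0 : V → ZMod 2) j)) - 1)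
        rw [hc]
        rfl
      · by_contra hm
        apply hne
        show MvPolynomial.coeff m (MvPolynomial.monomial (rowm e R j) (sg K (c j)) - 1) =
          MvPolynomial.coeff m (MvPolynomial.monomial (rowm e R j)
            (sg K ((0 : V → ZMod 2) j)) - 1)
        rw [MvPolynomial.coeff_sub, MvPolynomial.coeff_sub, MvPolynomial.coeff_monomial,
          MvPolynomial.coeff_monomial, if_neg hm, if_neg hm]
    · exact absurd rfl hne
  · exact absurd (by rw [psys_not e ι R _ q hq, psys_not e ι R _ q hq]) hne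

theorem rowm_degree (j : V) : (rowm e R j).sum (fun _ => id) = (R j).card := by
  unfold rowm
  rw [← Finsupp.sum_finsetSum_index (fun a => rfl) (fun a b₁ b₂ => rfl)]
  have h6 : ∀ v, ((Finsupp.single (e v) 1 : Fin N →₀ ℕ).sum fun _ => id) = 1 := by
    intro v
    rw [Finsupp.sum_single_index rfl]
    rfl
  simp only [h6]
  rw [sum_const, smul_eq_mul, mul_one]

/-- the locality of the instances -/
theorem psys_loc (hK : (2 : K) ≠ 0) (d : ℕ) (hR : ∀ j, (R j).card ≤ d)
    (hdeg : ∀ c q, (psys (K := K) e ι R c q).totalDegree ≤ d) (c : V → ZMod 2)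
    (f₁ : Fin N → ZMod 2) (i : Coord M N)
    (hne : coefs ((pact K M N d).a f₁ ⟨psys e ι R c, hdeg c⟩).1 i ≠
      coefs ((pact K M N d).a f₁ ⟨psys e ι R 0, hdeg 0⟩).1 i) :
    ∃ j, c j ≠ 0 ∧ ∀ f, (∀ x, coefs ((pact K M N d).a f x).1 i = coefs x.1 i) →
      AA R (fun v => f (e v)) j = 0 := by
  have h1 : coefs (chg f₁ (psys e ι R c)) i ≠ coefs (chg f₁ (psys e ι R 0)) i := hne
  rw [coefs_chg, coefs_chg] at h1
  rcases i with ⟨q, m, s⟩
  have h2 : (psys (K := K) e ι R c q).coeff m ≠ (psys (K := K) e ι R 0 q).coeff m := by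
    intro h
    apply h1
    show sg K _ * (psys (K := K) e ι R c q).coeff m = sg K _ * (psys (K := K) e ι R 0 q).coeff m
    rw [h]
  obtain ⟨j, hcj, hj⟩ := psys_ne e ι R c q m h2
  refine ⟨j, hcj, fun f hf => ?_⟩
  have hone : (MvPolynomial.monomial m (1 : K)).totalDegree ≤ d := by
    refine (MvPolynomial.totalDegree_monomial_le _ _).trans ?_
    rw [← hj, rowm_degree]
    exact hR j
  have h3 := hf ⟨fun _ => MvPolynomial.monomial m (1 : K), fun _ => hone⟩
  have h4 : coefs (chg f (fun _ : Fin M => MvPolynomial.monomial m (1 : K))) (q, m, s) =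
    coefs (fun _ : Fin M => MvPolynomial.monomial m (1 : K)) (q, m, s) := h3
  rw [coefs_chg] at h4
  have h5 : sg K (s + ∑ v, ((m v : ℕ) : ZMod 2) * f v) *
      (MvPolynomial.monomial m (1 : K)).coeff m = sg K s *
      (MvPolynomial.monomial m (1 : K)).coeff m := h4
  rw [MvPolynomial.coeff_monomial, if_pos rfl, mul_one, mul_one, sg_add] at h5
  have h6 : sg K (∑ v, ((m v : ℕ) : ZMod 2) * f v) = 1 := by
    have h7 := congrArg (fun x => sg K s * x) h5
    have h8 : sg K s * (sg K s * sg K (∑ v, ((m v : ℕ) : ZMod 2) * f v)) = sg K s * sg K s := h7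
    rwa [← mul_assoc, sg_mul_self, one_mul] at h8
  have h7 : ∑ v, ((m v : ℕ) : ZMod 2) * f v = 0 := by
    rcases z2_cases (∑ v, ((m v : ℕ) : ZMod 2) * f v) with h | h
    · exact h
    · exfalso
      rw [h, sg_one] at h6
      apply hK
      have h8 : (1 : K) + 1 = 0 := by
        nth_rewrite 1 [← h6]
        exact neg_add_cancel 1
      rw [← one_add_one_eq_two]
      exact h8
  rw [← hj, rowm_dot] at h7
  exact h7

end system

/-- **All circuits for systems of equations**: the advantage on random instances is small unless the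
circuit has many views. -/
theorem hn_breaking (K : Type) [Field K] (hK : (2 : K) ≠ 0) (d M N : ℕ)
    (G : AddSubgroup (Fin N → ZMod 2)) (hd : 2 ≤ d) (hG : 2 ^ d ≤ Nat.card G)
    (hM : 2 * Nat.log 2 (Nat.card G) ≤ M) :
    ∃ (Ω : Type) (_ : Fintype Ω) (_ : Nonempty Ω)
      (P₀ P₁ : Ω → Fin M → MvPolynomial (Fin N) K),
      (∀ ω q, (P₀ ω q).totalDegree ≤ d ∧ (P₁ ω q).totalDegree ≤ d) ∧
      (∀ ω, ∃ z : Fin N → K, (∀ v, z v = 1 ∨ z v = -1) ∧
        ∀ q, MvPolynomial.eval z (P₀ ω q) = 0) ∧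
      (∀ (ω : Ω) (A : Type) [CommRing A] [Algebra K A] [Nontrivial A] (z : Fin N → A),
        ∃ q, MvPolynomial.aeval z (P₁ ω q) ≠ 0) ∧
      ∀ (C : Circuit K (Coord M N)) (Acc : Set K),
        |(Nat.card {ω // C.val (coefs (P₀ ω)) C.out ∈ Acc} : ℝ) -
          (Nat.card {ω // C.val (coefs (P₁ ω)) C.out ∈ Acc} : ℝ)| ≤
          ((views G C d).ncard : ℝ) * (2 ^ (d + 2) * (6 * (Nat.log 2 (Nat.card G) : ℝ) + 3) ^ 4) /
            ((Nat.card G : ℕ) : ℝ) ^ (1 - 29 / (10 * d) : ℝ) * Fintype.card Ω := by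
  classical
  obtain ⟨H, hH1, hH2⟩ := info_set G
  obtain ⟨h, hh⟩ : ∃ h, h = H.card := ⟨_, rfl⟩
  have hlog : Nat.log 2 (Nat.card G) = h := by rw [hH1, ← hh]; exact Nat.log_pow (by norm_num) _
  rw [hlog] at hM ⊢
  have hG' := hG
  rw [hH1, ← hh] at hG
  have hkh : d ≤ h := (Nat.pow_le_pow_iff_right (by norm_num)).1 hG
  obtain ⟨μ, hμ⟩ : ∃ μ, μ = h / d := ⟨_, rfl⟩
  have hμ0 : 0 < μ := by rw [hμ]; exact Nat.div_pos hkh (by omega)
  have hNh : μ * d ≤ h := by rw [hμ]; exact Nat.div_mul_le_self h d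
  have hμ2 : 2 * μ ≤ μ * d := by
    rw [mul_comm]
    exact Nat.mul_le_mul_left μ hd
  obtain ⟨e, he⟩ : ∃ e : Fin (μ * d) ↪ Fin N, ∀ v, e v ∈ H :=
    ⟨(Fin.castLEEmb hNh).trans (H.orderEmbOfFin hh.symm).toEmbedding,
      fun v => H.orderEmbOfFin_mem hh.symm _⟩
  have hlift : ∀ t : Fin (μ * d) → ZMod 2, ∃ f ∈ G, (fun v => f (e v)) = t := by
    intro t
    obtain ⟨f, hf, hft⟩ := hH2 (extF e t)
    exact ⟨f, hf, funext fun v => by rw [hft _ (he v), extF_apply]⟩
  obtain ⟨ι⟩ : Nonempty (Fin (2 * μ) ⊕ Fin (μ * d) ↪ Fin M) :=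
    Function.Embedding.nonempty_of_card_le (by
      rw [Fintype.card_sum, Fintype.card_fin, Fintype.card_fin, Fintype.card_fin]
      omega)
  have hmax : max d 2 = d := max_eq_left hd
  obtain ⟨blk, hblk⟩ := exists_blk μ d
  have hVμ : Fintype.card (Fin (2 * μ)) = 2 * μ := Fintype.card_fin _
  have hV2 : 2 ≤ Fintype.card (Fin (2 * μ)) := by rw [hVμ]; omega
  obtain ⟨j₀⟩ : Nonempty (Fin (2 * μ)) := ⟨⟨0, by omega⟩⟩
  have hR : ∀ (π : Equiv.Perm (Fin (μ * d) × Bool)) j, (RG blk π j).card ≤ d :=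
    fun π j => card_RG blk π j d (hblk j).le
  have hdeg : ∀ (π : Equiv.Perm (Fin (μ * d) × Bool)) c q,
      (psys (K := K) e ι (RG blk π) c q).totalDegree ≤ d := by
    intro π c q
    have h1 := psys_degree (K := K) e ι (RG blk π) c d (hR π) q
    rwa [hmax] at h1
  have hGfin : Finite G := inferInstance
  let _ : Fintype G := Fintype.ofFinite G
  refine ⟨Equiv.Perm (Fin (μ * d) × Bool) × G, inferInstance, inferInstance,
    fun ω => chg ω.2.1 (psys e ι (RG blk ω.1) 0),
    fun ω => chg ω.2.1 (psys e ι (RG blk ω.1) (cRG blk j₀ ω.1)),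
    fun ω q => ⟨(chg_degree _ _ q).trans (hdeg _ _ q), (chg_degree _ _ q).trans (hdeg _ _ q)⟩,
    fun ω => ⟨fun v => sg K (ω.2.1 v), fun v => ?_, fun q => ?_⟩, fun ω A _ _ _ z => ?_, ?_⟩
  · rcases z2_cases (ω.2.1 v) with h | h
    · left
      show sg K (ω.2.1 v) = 1
      rw [h, sg_zero]
    · right
      show sg K (ω.2.1 v) = -1
      rw [h, sg_one]
  · have h1 := aeval_chg (K := K) (A := K) ω.2.1 (psys e ι (RG blk ω.1) 0) q (fun v => sg K (ω.2.1 v))
    have h2 : (fun v => sg K (ω.2.1 v) * sg K (ω.2.1 v)) = fun _ : Fin N => (1 : K) := by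
      funext v
      exact sg_mul_self _
    rw [h2] at h1
    have h3 := psys_sat (K := K) e ι (RG blk ω.1) q
    rw [← MvPolynomial.coe_aeval_eq_eval] at h3 ⊢
    exact h1.trans h3
  · by_contra hcon
    push Not at hcon
    refine psys_unsat e ι (RG blk ω.1) hK (cRG blk j₀ ω.1) (cRG_unsat blk j₀ hV2 ω.1)
      (fun v => sg A (ω.2.1 v) * z v) (fun q => ?_)
    rw [← aeval_chg]
    exact hcon q
  intro C Acc
  obtain ⟨B, hB1, hB2⟩ := gen_adv hμ0 G e hlift blk hblk j₀ (pact K M N d)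
    (fun P => coefs P.1) (fun π c => ⟨psys e ι (RG blk π) c, hdeg π c⟩)
    (fun π f c => Subtype.ext (chg_psys e ι (RG blk π) c f))
    (fun π c f₁ i hne => psys_loc e ι (RG blk π) hK d (hR π) (hdeg π) c f₁ i hne) C Acc
  have hviews : viewsA (pact K M N d) G (fun P => coefs P.1) C = views G C d := rfl
  rw [hviews] at hB1
  have hrate := rate_num d h (by omega) ((views G C d).ncard : ℝ)
    (((2 * (μ * d)).factorial : ℕ) : ℝ) (B : ℝ)
    (Nat.cast_nonneg _) (Nat.cast_nonneg _) (by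
      rw [← hμ]
      exact hB1)
  have hΩ : (Fintype.card (Equiv.Perm (Fin (μ * d) × Bool) × G) : ℝ) =
      (((2 * (μ * d)).factorial : ℕ) : ℝ) * Nat.card G := by
    rw [Fintype.card_prod, Fintype.card_perm, Fintype.card_prod, Fintype.card_fin,
      Fintype.card_bool, mul_comm (μ * d) 2, Nat.card_eq_fintype_card]
    push_cast
    rfl
  have h4 : ((Nat.card G : ℕ) : ℝ) ^ (1 - 29 / (10 * d) : ℝ) =
      (2 : ℝ) ^ ((1 - 29 / (10 * d) : ℝ) * h) := by
    rw [hH1, ← hh]
    push_cast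
    rw [← Real.rpow_natCast, ← Real.rpow_mul (by norm_num), mul_comm]
  rw [hΩ, h4, ← mul_assoc]
  exact hB2.trans (mul_le_mul_of_nonneg_right hrate (Nat.cast_nonneg _))

end Pool.Agent.T9h47.SY
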