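import Mathlib
import Pool.Agent.T9h47.SE.HN
import Pool.Agent.T9h47.SY.HN

/-!
# Exhaustive search over all signs
-/

set_option autoImplicit false
set_option linter.unusedSectionVars false

namespace Pool.Agent.T9h47.SY

open Finset
open Pool.Agent.T9h47.SC Pool.Agent.T9h47.SE

/-- monomials of bounded degree -/
noncomputable def Td (N : ℕ) : ℕ → Finset (Fin N →₀ ℕ)
  | 0 => {0}
  | d + 1 => Td N d ∪ (Td N d ×ˢ (univ : Finset (Fin N))).image
      (fun p => p.1 + Finsupp.single p.2 1)

theorem Td_succ (N d : ℕ) : Td N (d + 1) = Td N d ∪ (Td N d ×ˢ (univ : Finset (Fin N))).image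
    (fun p => p.1 + Finsupp.single p.2 1) := rfl

theorem card_Td (N d : ℕ) : (Td N d).card ≤ (N + 1) ^ d := by
  induction d with
  | zero => exact (card_singleton _).le
  | succ d ih =>
    have h1 : (Td N (d + 1)).card ≤ (Td N d).card + ((Td N d ×ˢ (univ : Finset (Fin N))).image
        (fun p => p.1 + Finsupp.single p.2 1)).card := by
      rw [Td_succ]
      exact card_union_le _ _
    have h2 : ((Td N d ×ˢ (univ : Finset (Fin N))).image
        (fun p => p.1 + Finsupp.single p.2 1)).card ≤ (Td N d).card * N := by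
      refine card_image_le.trans ?_
      rw [card_product, card_univ, Fintype.card_fin]
    calc (Td N (d + 1)).card ≤ (Td N d).card + (Td N d).card * N := h1.trans (by omega)
      _ = (Td N d).card * (N + 1) := by ring
      _ ≤ (N + 1) ^ d * (N + 1) := Nat.mul_le_mul_right _ ih
      _ = (N + 1) ^ (d + 1) := (pow_succ _ _).symm

theorem mem_Td {N : ℕ} (d : ℕ) : ∀ m : Fin N →₀ ℕ, ∑ v, m v ≤ d → m ∈ Td N d := by
  induction d with
  | zero =>
    intro m hm
    have h1 : m = 0 := by
      ext v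
      have h2 : m v ≤ ∑ v, m v := single_le_sum (f := fun v => m v) (fun _ _ => Nat.zero_le _)
        (mem_univ v)
      show m v = 0
      omega
    rw [h1]
    exact mem_singleton_self _
  | succ d ih =>
    intro m hm
    rw [Td_succ, mem_union]
    by_cases h0 : m = 0
    · left
      apply ih
      rw [h0]
      have h1 : ∑ v, (0 : Fin N →₀ ℕ) v = 0 := sum_eq_zero fun v _ => rfl
      omega
    · right
      obtain ⟨v, hv⟩ : ∃ v, m v ≠ 0 := by
        by_contra hcon
        push Not at hcon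
        exact h0 (Finsupp.ext hcon)
      have h1 : m - Finsupp.single v 1 + Finsupp.single v 1 = m := by
        apply tsub_add_cancel_of_le
        rw [Finsupp.single_le_iff]
        omega
      rw [mem_image]
      refine ⟨(m - Finsupp.single v 1, v), ?_, h1⟩
      rw [mem_product]
      refine ⟨ih _ ?_, mem_univ _⟩
      have h2 : ∑ w, m w = ∑ w, (m - Finsupp.single v 1 : Fin N →₀ ℕ) w +
          ∑ w, (Finsupp.single v 1 : Fin N →₀ ℕ) w := by
        rw [← sum_add_distrib]
        refine sum_congr rfl fun w _ => ?_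
        rw [← Finsupp.add_apply, h1]
      have h3 : ∑ w, (Finsupp.single v 1 : Fin N →₀ ℕ) w = 1 := by
        rw [sum_eq_single v]
        · exact Finsupp.single_eq_same
        · intro w _ hw
          exact Finsupp.single_eq_of_ne hw
        · intro h; exact absurd (mem_univ _) h
      show ∑ w, (m - Finsupp.single v 1 : Fin N →₀ ℕ) w ≤ d
      omega

/-- the gates: one for each equation, monomial and sign, one for each vector of signs, and the
output gate -/
abbrev HG (M N d : ℕ) : Type :=
  (Fin M × {m // m ∈ Td N d} × ZMod 2) ⊕ ((Fin N → ZMod 2) ⊕ Unit)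

noncomputable local instance (M N d : ℕ) : DecidableEq (HG M N d) := Classical.decEq _

/-- the sign of a monomial -/
def dm {N : ℕ} (m : Fin N →₀ ℕ) (a : Fin N → ZMod 2) : ZMod 2 := ∑ v, ((m v : ℕ) : ZMod 2) * a v

theorem dm_add {N : ℕ} (m : Fin N →₀ ℕ) (a b : Fin N → ZMod 2) : dm m (a + b) = dm m a + dm m b := by
  unfold dm
  rw [← sum_add_distrib]
  exact sum_congr rfl fun v _ => mul_add _ _ _

section

variable {K : Type} [Field K] {M N d : ℕ}

/-- all sums are zero -/
noncomputable def zeroOp (K : Type) [Field K] (ms : ℕ → Multiset K) : K :=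
  open Classical in if ∀ r, (ms r).sum = 0 then 1 else 0

/-- some value is one -/
noncomputable def oneOp (K : Type) [Field K] (ms : ℕ → Multiset K) : K :=
  open Classical in if 1 ∈ ms 0 then 1 else 0

/-- children -/
noncomputable def hkids : HG M N d → Finset (ℕ × HG M N d)
  | Sum.inl _ => ∅
  | Sum.inr (Sum.inl a) => univ.image (fun p : Fin M × {m // m ∈ Td N d} =>
      ((p.1 : ℕ), (Sum.inl (p.1, p.2, dm p.2.1 a) : HG M N d)))
  | Sum.inr (Sum.inr _) => univ.image (fun a => (0, Sum.inr (Sum.inl a)))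

theorem mem_hkids_I (i : Fin M × {m // m ∈ Td N d} × ZMod 2) (p : ℕ × HG M N d) :
    p ∈ hkids (Sum.inl i : HG M N d) ↔ False := by
  show p ∈ (∅ : Finset _) ↔ _
  simp only [notMem_empty]

theorem mem_hkids_A (a : Fin N → ZMod 2) (p : ℕ × HG M N d) :
    p ∈ hkids (Sum.inr (Sum.inl a) : HG M N d) ↔
      ∃ (q : Fin M) (m : {m // m ∈ Td N d}), p = ((q : ℕ), Sum.inl (q, m, dm m.1 a)) := by
  show p ∈ univ.image (fun p : Fin M × {m // m ∈ Td N d} =>
      ((p.1 : ℕ), (Sum.inl (p.1, p.2, dm p.2.1 a) : HG M N d))) ↔ _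
  rw [mem_image]
  constructor
  · rintro ⟨⟨q, m⟩, _, rfl⟩
    exact ⟨q, m, rfl⟩
  · rintro ⟨q, m, rfl⟩
    exact ⟨(q, m), mem_univ _, rfl⟩

theorem mem_hkids_O (p : ℕ × HG M N d) :
    p ∈ hkids (Sum.inr (Sum.inr ()) : HG M N d) ↔ ∃ a, p = (0, Sum.inr (Sum.inl a)) := by
  show p ∈ univ.image (fun a => ((0 : ℕ), (Sum.inr (Sum.inl a) : HG M N d))) ↔ _
  rw [mem_image]
  simp only [mem_univ, true_and, eq_comm (b := p)]

/-- rank -/
def hrank : HG M N d → ℕ
  | Sum.inl _ => 0
  | Sum.inr (Sum.inl _) => 1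
  | Sum.inr (Sum.inr _) => 2

/-- labels -/
noncomputable def hlab (K : Type) [Field K] : HG M N d → Coord M N ⊕ ((ℕ → Multiset K) → K)
  | Sum.inl i => Sum.inl (i.1, i.2.1.1, i.2.2)
  | Sum.inr (Sum.inl _) => Sum.inr (zeroOp K)
  | Sum.inr (Sum.inr _) => Sum.inr (oneOp K)

variable (K M N d)

/-- the exhaustive search -/
noncomputable def hbrute : Circuit K (Coord M N) where
  Gate := HG M N d
  fin := inferInstance
  rank := hrank
  lab := hlab K
  kids := hkids
  out := Sum.inr (Sum.inr ())
  rank_lt := by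
    intro g p hp
    rcases g with i | a | u
    · rw [mem_hkids_I] at hp
      exact absurd hp id
    · obtain ⟨q, m, rfl⟩ := (mem_hkids_A a p).1 hp
      exact Nat.zero_lt_one
    · obtain ⟨a, rfl⟩ := (mem_hkids_O p).1 hp
      exact Nat.one_lt_two

variable {K M N d}

theorem eval_sg (P : MvPolynomial (Fin N) K) (hP : P.totalDegree ≤ d) (a : Fin N → ZMod 2) :
    ∑ m : {m // m ∈ Td N d}, sg K (dm m.1 a) * P.coeff m.1 =
      MvPolynomial.eval (fun v => sg K (a v)) P := by
  rw [MvPolynomial.eval_eq']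
  have h1 : ∑ m : {m // m ∈ Td N d}, sg K (dm m.1 a) * P.coeff m.1 =
      ∑ m ∈ Td N d, sg K (dm m a) * P.coeff m :=
    sum_coe_sort (Td N d) (fun m => sg K (dm m a) * P.coeff m)
  rw [h1]
  symm
  have hsub : P.support ⊆ Td N d := by
    intro m hm
    apply mem_Td
    have h2 := MvPolynomial.le_totalDegree hm
    have h3 : (m.sum fun _ e => e) = ∑ v, m v := Finsupp.sum_fintype _ _ (fun _ => rfl)
    omega
  rw [← sum_subset hsub]
  · refine sum_congr rfl fun m _ => ?_
    rw [mul_comm]
    congr 1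
    unfold dm
    rw [sg_sum]
    exact prod_congr rfl fun v _ => (sg_nat_mul _ _).symm
  · intro m _ hm
    rw [MvPolynomial.notMem_support_iff.1 hm, mul_zero]

theorem hbrute_decides (P : Fin M → MvPolynomial (Fin N) K) (hP : ∀ q, (P q).totalDegree ≤ d) :
    (hbrute K M N d).val (coefs P) (hbrute K M N d).out = 1 ↔
      ∃ z : Fin N → K, (∀ v, z v = 1 ∨ z v = -1) ∧ ∀ q, MvPolynomial.eval z (P q) = 0 := by
  classical
  obtain ⟨V, hV⟩ : ∃ V : HG M N d → K, V = (hbrute K M N d).val (coefs P) := ⟨_, rfl⟩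
  have hVC : ∀ (q : Fin M) (m : {m // m ∈ Td N d}) (s : ZMod 2),
      V (Sum.inl (q, m, s)) = sg K s * (P q).coeff m.1 := by
    intro q m s
    rw [hV]
    exact (hbrute K M N d).val_inl _ (Sum.inl (q, m, s) : HG M N d) (q, m.1, s) rfl
  have hVA : ∀ a, V (Sum.inr (Sum.inl a)) =
      if ∀ q, MvPolynomial.eval (fun v => sg K (a v)) (P q) = 0 then 1 else 0 := by
    intro a
    have h1 : V (Sum.inr (Sum.inl a)) = zeroOp K fun r =>
        ((hkids (Sum.inr (Sum.inl a) : HG M N d)).filter
        (fun p => p.1 = r)).val.map (fun p => V p.2) := by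
      rw [hV]
      exact (hbrute K M N d).val_inr _ (Sum.inr (Sum.inl a) : HG M N d) (zeroOp K) rfl
    have hsum : ∀ r, (((hkids (Sum.inr (Sum.inl a) : HG M N d)).filter
        (fun p => p.1 = r)).val.map (fun p => V p.2)).sum =
        ∑ p ∈ (hkids (Sum.inr (Sum.inl a) : HG M N d)).filter (fun p => p.1 = r), V p.2 :=
      fun r => rfl
    have hq : ∀ q : Fin M, ∑ p ∈ (hkids (Sum.inr (Sum.inl a) : HG M N d)).filter
        (fun p => p.1 = (q : ℕ)), V p.2 = MvPolynomial.eval (fun v => sg K (a v)) (P q) := by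
      intro q
      have h2 : (hkids (Sum.inr (Sum.inl a) : HG M N d)).filter (fun p => p.1 = (q : ℕ)) =
          univ.image (fun m : {m // m ∈ Td N d} =>
            ((q : ℕ), (Sum.inl (q, m, dm m.1 a) : HG M N d))) := by
        ext p
        rw [mem_filter, mem_hkids_A, mem_image]
        constructor
        · rintro ⟨⟨q', m, rfl⟩, hr⟩
          have hqq : q' = q := Fin.ext hr
          subst hqq
          exact ⟨m, mem_univ _, rfl⟩
        · rintro ⟨m, _, rfl⟩
          exact ⟨⟨q, m, rfl⟩, rfl⟩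
      rw [h2, sum_image]
      · rw [← eval_sg (P q) (hP q) a]
        exact sum_congr rfl fun m _ => hVC q m _
      · intro m _ m' _ hmm
        have h3 : (Sum.inl (q, m, dm m.1 a) : HG M N d) = Sum.inl (q, m', dm m'.1 a) :=
          congrArg Prod.snd hmm
        have h4 := Sum.inl.inj h3
        exact congrArg (fun x : Fin M × {m // m ∈ Td N d} × ZMod 2 => x.2.1) h4
    rw [h1]
    unfold zeroOp
    refine if_congr ?_ rfl rfl
    constructor
    · intro h q
      rw [← hq q, ← hsum]
      exact h q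
    · intro h r
      rw [hsum]
      by_cases hr : r < M
      · have h3 := hq ⟨r, hr⟩
        have h4 : ((⟨r, hr⟩ : Fin M) : ℕ) = r := rfl
        rw [h4] at h3
        rw [h3]
        exact h _
      · apply sum_eq_zero
        intro p hp
        exfalso
        rw [mem_filter, mem_hkids_A] at hp
        obtain ⟨⟨q, m, rfl⟩, hr'⟩ := hp
        have h3 : (q : ℕ) = r := hr'
        have h4 := q.2
        omega
  have hVO : V (Sum.inr (Sum.inr ())) = 1 ↔ ∃ a, V (Sum.inr (Sum.inl a)) = 1 := by
    have h1 : V (Sum.inr (Sum.inr ())) = oneOp K fun r =>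
        ((hkids (Sum.inr (Sum.inr ()) : HG M N d)).filter
        (fun p => p.1 = r)).val.map (fun p => V p.2) := by
      rw [hV]
      exact (hbrute K M N d).val_inr _ (Sum.inr (Sum.inr ()) : HG M N d) (oneOp K) rfl
    rw [h1]
    unfold oneOp
    have h2 : ∀ p : Prop, [Decidable p] → ((if p then (1 : K) else 0) = 1 ↔ p) := by
      intro p _
      by_cases h : p
      · rw [if_pos h]; exact ⟨fun _ => h, fun _ => rfl⟩
      · rw [if_neg h]; exact ⟨fun h' => absurd h' zero_ne_one, fun h' => absurd h' h⟩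
    rw [h2, Multiset.mem_map]
    constructor
    · rintro ⟨p, hp, hv⟩
      rw [mem_val, mem_filter] at hp
      obtain ⟨a, rfl⟩ := (mem_hkids_O p).1 hp.1
      exact ⟨a, hv⟩
    · rintro ⟨a, ha⟩
      refine ⟨(0, Sum.inr (Sum.inl a)), ?_, ha⟩
      rw [mem_val, mem_filter]
      exact ⟨(mem_hkids_O _).2 ⟨a, rfl⟩, rfl⟩
  have h2 : (hbrute K M N d).val (coefs P) (hbrute K M N d).out = V (Sum.inr (Sum.inr ())) := by
    rw [hV]; rfl
  rw [h2, hVO]
  constructor
  · rintro ⟨a, ha⟩
    refine ⟨fun v => sg K (a v), fun v => ?_, ?_⟩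
    · rcases z2_cases (a v) with h | h
      · left
        show sg K (a v) = 1
        rw [h, sg_zero]
      · right
        show sg K (a v) = -1
        rw [h, sg_one]
    · by_contra hcon
      rw [hVA, if_neg hcon] at ha
      exact zero_ne_one ha
  · rintro ⟨z, hz, h⟩
    refine ⟨fun v => if z v = 1 then 0 else 1, ?_⟩
    have h3 : (fun v => sg K (if z v = 1 then (0 : ZMod 2) else 1)) = z := by
      funext v
      by_cases h4 : z v = 1
      · rw [if_pos h4, sg_zero, h4]
      · rw [if_neg h4, sg_one]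
        rcases hz v with h5 | h5
        · exact absurd h5 h4
        · exact h5.symm
    rw [hVA]
    refine if_pos ?_
    intro q
    show MvPolynomial.eval (fun v => sg K (if z v = 1 then (0 : ZMod 2) else 1)) (P q) = 0
    rw [h3]
    exact h q

/-- the automorphism for a sign change -/
def haut (f : Fin N → ZMod 2) : Equiv.Perm (HG M N d) :=
  Equiv.sumCongr
    ⟨fun i => (i.1, i.2.1, i.2.2 + dm i.2.1.1 f), fun i => (i.1, i.2.1, i.2.2 + dm i.2.1.1 f),
      fun i => by
        rcases i with ⟨q, m, s⟩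
        show (q, m, s + dm m.1 f + dm m.1 f) = (q, m, s)
        rw [add_assoc, z2_self, add_zero],
      fun i => by
        rcases i with ⟨q, m, s⟩
        show (q, m, s + dm m.1 f + dm m.1 f) = (q, m, s)
        rw [add_assoc, z2_self, add_zero]⟩
    (Equiv.sumCongr (Equiv.addRight f) (Equiv.refl Unit))

theorem haut_kids (f : Fin N → ZMod 2) (g h : HG M N d) (r : ℕ) :
    (r, haut f h) ∈ hkids (haut f g) ↔ (r, h) ∈ hkids g := by
  rcases g with i | a | u
  · show _ ∈ hkids (Sum.inl _ : HG M N d) ↔ _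
    rw [mem_hkids_I, mem_hkids_I]
  · show _ ∈ hkids (Sum.inr (Sum.inl (a + f)) : HG M N d) ↔ _
    rw [mem_hkids_A, mem_hkids_A]
    constructor
    · rintro ⟨q, m, heq⟩
      have h1 := Prod.ext_iff.1 heq
      have hr : r = (q : ℕ) := h1.1
      have h2 : haut f h = Sum.inl (q, m, dm m.1 (a + f)) := h1.2
      refine ⟨q, m, ?_⟩
      rcases h with i | b | v
      · rcases i with ⟨q', m', s'⟩
        have h3 : (q', m', s' + dm m'.1 f) = (q, m, dm m.1 (a + f)) := Sum.inl.inj h2
        have h4 : q' = q := congrArg (fun x : Fin M × {m // m ∈ Td N d} × ZMod 2 => x.1) h3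
        have h5 : m' = m := congrArg (fun x : Fin M × {m // m ∈ Td N d} × ZMod 2 => x.2.1) h3
        have h6 : s' + dm m'.1 f = dm m.1 (a + f) :=
          congrArg (fun x : Fin M × {m // m ∈ Td N d} × ZMod 2 => x.2.2) h3
        subst h4 h5
        rw [dm_add] at h6
        rw [add_right_cancel h6, hr]
      · cases h2
      · cases h2
    · rintro ⟨q, m, heq⟩
      have h1 := Prod.ext_iff.1 heq
      have hr : r = (q : ℕ) := h1.1
      have h2 : h = Sum.inl (q, m, dm m.1 a) := h1.2
      subst hr h2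
      refine ⟨q, m, ?_⟩
      show ((q : ℕ), (Sum.inl (q, m, dm m.1 a + dm m.1 f) : HG M N d)) = _
      rw [dm_add]
  · show _ ∈ hkids (Sum.inr (Sum.inr ()) : HG M N d) ↔ _ ∈ hkids (Sum.inr (Sum.inr ()) : HG M N d)
    rw [mem_hkids_O, mem_hkids_O]
    constructor
    · rintro ⟨b, heq⟩
      have h1 := Prod.ext_iff.1 heq
      have hr : r = 0 := h1.1
      have h2 : haut f h = Sum.inr (Sum.inl b) := h1.2
      rcases h with D | b' | v
      · cases h2
      · exact ⟨b', by rw [hr]⟩
      · cases h2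
    · rintro ⟨b, heq⟩
      have h1 := Prod.ext_iff.1 heq
      have hr : r = 0 := h1.1
      have h2 : h = Sum.inr (Sum.inl b) := h1.2
      subst hr h2
      exact ⟨b + f, rfl⟩

theorem hbrute_sym : SymSign (hbrute K M N d) ⊤ := by
  intro f _
  refine ⟨haut f, rfl, ?_, fun g r h => haut_kids f g h r⟩
  rintro (i | a | u) <;> rfl

theorem hbrute_card : @Fintype.card (hbrute K M N d).Gate (hbrute K M N d).fin ≤
    2 ^ N + 2 * M * (N + 1) ^ d + 1 := by
  have h0 : @Fintype.card (hbrute K M N d).Gate (hbrute K M N d).fin = Fintype.card (HG M N d) :=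
    rfl
  rw [h0, Fintype.card_sum, Fintype.card_sum, Fintype.card_fun, ZMod.card, Fintype.card_fin,
    Fintype.card_unit, Fintype.card_prod, Fintype.card_prod, Fintype.card_fin, Fintype.card_coe,
    ZMod.card]
  have h1 := card_Td N d
  have h2 : M * ((Td N d).card * 2) ≤ 2 * M * (N + 1) ^ d := by
    calc M * ((Td N d).card * 2) = 2 * M * (Td N d).card := by ring
      _ ≤ _ := Nat.mul_le_mul_left _ h1
  omega

end

end Pool.Agent.T9h47.SY
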