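import Mathlib
import Pool.Agent.T9h47.SY.HN
import Pool.Agent.T9h47.SY.Brute

/-!
# Systems of polynomial equations and the group of sign changes
-/

set_option autoImplicit false
set_option linter.unusedSectionVars false

namespace Pool.Agent.T9h47.SY

open Finset
open Pool.Agent.T9h47.SC Pool.Agent.T9h47.SE

/-- circuits which separate the solvable systems from the others have many views -/
theorem hn_breaking_worst (K : Type) [Field K] (hK : (2 : K) ≠ 0) (d M N : ℕ)
    (G : AddSubgroup (Fin N → ZMod 2)) (hd : 2 ≤ d) (hG : 2 ^ d ≤ Nat.card G)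
    (hM : 2 * Nat.log 2 (Nat.card G) ≤ M) (C : Circuit K (Coord M N)) (Acc : Set K)
    (hacc : ∀ P : Fin M → MvPolynomial (Fin N) K, (∀ q, (P q).totalDegree ≤ d) →
      (∃ z : Fin N → K, (∀ v, z v = 1 ∨ z v = -1) ∧ ∀ q, MvPolynomial.eval z (P q) = 0) →
      C.val (coefs P) C.out ∈ Acc)
    (hrej : ∀ P : Fin M → MvPolynomial (Fin N) K, (∀ q, (P q).totalDegree ≤ d) →
      (∀ (A : Type) [CommRing A] [Algebra K A] [Nontrivial A] (z : Fin N → A),
        ∃ q, MvPolynomial.aeval z (P q) ≠ 0) →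
      C.val (coefs P) C.out ∉ Acc) :
    ((Nat.card G : ℕ) : ℝ) ^ (1 - 29 / (10 * d) : ℝ) ≤
      ((views G C d).ncard : ℝ) *
        (2 ^ (d + 2) * (6 * (Nat.log 2 (Nat.card G) : ℝ) + 3) ^ 4) := by
  obtain ⟨Ω, _, _, P₀, P₁, hdeg, hs, hu, h2⟩ := hn_breaking K hK d M N G hd hG hM
  have h3 := h2 C Acc
  have h4 : Nat.card {ω // C.val (coefs (P₀ ω)) C.out ∈ Acc} = Fintype.card Ω := by
    rw [← Nat.card_eq_fintype_card]
    refine Nat.card_congr (Equiv.subtypeUnivEquiv fun ω => ?_)
    exact hacc _ (fun q => (hdeg ω q).1) (hs ω)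
  have h5 : Nat.card {ω // C.val (coefs (P₁ ω)) C.out ∈ Acc} = 0 := by
    rw [Nat.card_eq_zero]
    left
    refine ⟨fun ω => ?_⟩
    exact hrej _ (fun q => (hdeg ω.1 q).2) (fun A _ _ _ z => hu ω.1 A z) ω.2
  rw [h4, h5, Nat.cast_zero, sub_zero] at h3
  have hΩ : (0 : ℝ) < Fintype.card Ω := by exact_mod_cast Fintype.card_pos
  rw [abs_of_pos hΩ] at h3
  have h6 : 1 ≤ ((views G C d).ncard : ℝ) *
      (2 ^ (d + 2) * (6 * (Nat.log 2 (Nat.card G) : ℝ) + 3) ^ 4) /
      ((Nat.card G : ℕ) : ℝ) ^ (1 - 29 / (10 * d) : ℝ) := by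
    refine le_of_mul_le_mul_right ?_ hΩ
    rw [one_mul]
    exact h3
  have hGpos : (0 : ℝ) < ((Nat.card G : ℕ) : ℝ) := by
    have : 0 < Nat.card G := lt_of_lt_of_le (by positivity) hG
    exact_mod_cast this
  rw [le_div_iff₀ (Real.rpow_pos_of_pos hGpos _), one_mul] at h6
  exact h6

/-- views and automorphisms -/
theorem view_aut {K I : Type} (C : Circuit K I) {π : I → I} {α : Equiv.Perm C.Gate}
    (hα : C.IsAut π α) (g : C.Gate) (x : I → K) : view C (α g) x = view C g (x ∘ π) := by
  classical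
  have hval : ∀ g, C.val x (α g) = C.val (x ∘ π) g := by
    intro g
    exact hα.val _ (C.rank g + 1) g (Nat.lt_succ_self _)
  unfold view
  rw [hval]
  congr 1
  funext r
  have h1 : (C.kids (α g)).filter (fun p => p.1 = r) =
      ((C.kids g).filter (fun p => p.1 = r)).map
        ⟨fun p => (p.1, α p.2), fun p q hpq => by
          have h2 := Prod.ext_iff.1 hpq
          exact Prod.ext h2.1 (α.injective h2.2)⟩ := by
    ext ⟨r', j⟩
    rw [mem_filter, mem_map]
    constructor
    · rintro ⟨hk, hr⟩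
      refine ⟨(r', α⁻¹ j), ?_, ?_⟩
      · rw [mem_filter]
        refine ⟨?_, hr⟩
        rw [← hα.kids, papply_inv]
        exact hk
      · show (r', α (α⁻¹ j)) = (r', j)
        rw [papply_inv]
    · rintro ⟨⟨r'', j'⟩, hk', heq⟩
      rw [mem_filter] at hk'
      have h2 := Prod.ext_iff.1 heq
      have h3 : r'' = r' := h2.1
      have h4 : α j' = j := h2.2
      subst h3
      subst h4
      exact ⟨(hα.kids g r'' j').2 hk'.1, hk'.2⟩
  rw [h1, Finset.map_val, Multiset.map_map]
  refine Multiset.map_congr rfl ?_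
  rintro ⟨r', j⟩ _
  exact hval j

/-- a symmetric circuit has at most as many views as gates -/
theorem views_symm {K : Type} [Field K] {M N : ℕ} (G : AddSubgroup (Fin N → ZMod 2))
    (C : Circuit K (Coord M N)) (d : ℕ) (hS : SymSign C G) :
    (views G C d).ncard ≤ @Fintype.card C.Gate C.fin := by
  classical
  let _ := C.fin
  have h1 : views G C d ⊆ Set.range (fun (g : C.Gate)
      (P : {P : Fin M → MvPolynomial (Fin N) K // ∀ q, (P q).totalDegree ≤ d}) =>
        view C g (coefs P.1)) := by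
    rintro L ⟨g, f, hf, rfl⟩
    obtain ⟨α, hα⟩ := hS f hf
    refine ⟨α g, ?_⟩
    funext P
    show view C (α g) (coefs P.1) = view C g (coefs (chg f P.1))
    rw [view_aut C hα]
    congr 1
    funext i
    exact (coefs_chg f P.1 i).symm
  refine (Set.ncard_le_ncard h1 (Set.finite_range _)).trans ?_
  rw [← Nat.card_coe_set_eq, ← Nat.card_eq_fintype_card]
  exact Nat.card_le_card_of_surjective (Set.rangeFactorization _)
    Set.rangeFactorization_surjective

/-- a circuit has at most `|G|` times as many views as gates -/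
theorem views_le {K : Type} [Field K] {M N : ℕ} (G : AddSubgroup (Fin N → ZMod 2))
    (C : Circuit K (Coord M N)) (d : ℕ) :
    (views G C d).ncard ≤ Nat.card G * @Fintype.card C.Gate C.fin := by
  classical
  let _ := C.fin
  have h1 : views G C d ⊆ Set.range (fun (p : G × C.Gate)
      (P : {P : Fin M → MvPolynomial (Fin N) K // ∀ q, (P q).totalDegree ≤ d}) =>
        view C p.2 (coefs (chg p.1.1 P.1))) := by
    rintro L ⟨g, f, hf, rfl⟩
    exact ⟨(⟨f, hf⟩, g), rfl⟩
  refine (Set.ncard_le_ncard h1 (Set.finite_range _)).trans ?_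
  rw [← Nat.card_coe_set_eq, ← Nat.card_eq_fintype_card, ← Nat.card_prod]
  exact Nat.card_le_card_of_surjective (Set.rangeFactorization _)
    Set.rangeFactorization_surjective

end Pool.Agent.T9h47.SY
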