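import Mathlib
import Pool.Agent.T9h47.SY.Gen

/-!
# Views of gates on instances with witnesses
-/

set_option autoImplicit false
set_option linter.unusedSectionVars false

namespace Pool.Agent.T9h47.SY

open Finset
open Pool.Agent.T9h47.SC Pool.Agent.T9h47.SE Pool.Agent.T9h47.SX

/-- **Certificates for random instances**, for systems of linear equations on random regular
multigraphs: if no satisfiable instance has a certificate then few of the others have. -/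
theorem gen_union {n k μ : ℕ} (hμ0 : 0 < μ) (G : AddSubgroup (Fin n → ZMod 2))
    (e : Fin (μ * k) ↪ Fin n)
    (hlift : ∀ t : Fin (μ * k) → ZMod 2, ∃ f ∈ G, (fun v => f (e v)) = t)
    (blk : Fin (μ * k) × Bool → Fin (2 * μ))
    (hblk : ∀ v, (univ.filter (fun x => blk x = v)).card = k) (j₀ : Fin (2 * μ))
    {X I K W : Type} [Fintype W] (A : VAct n X) (ip : W → X → I → K)
    (S : Equiv.Perm (Fin (μ * k) × Bool) → (Fin (2 * μ) → ZMod 2) → X)
    (hS : ∀ π f c, A.a f (S π c) = S π (c + AA (RG blk π) (fun v => f (e v))))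
    (hloc : ∀ w π c f₁ i, ip w (A.a f₁ (S π c)) i ≠ ip w (A.a f₁ (S π 0)) i → ∃ j, c j ≠ 0 ∧
      ∀ f, (∀ x, ip w (A.a f x) i = ip w x i) → AA (RG blk π) (fun v => f (e v)) j = 0)
    (C : Circuit K I) (Acc : Set K)
    (h0 : ∀ w π, ∀ f ∈ G, C.val (ip w (A.a f (S π 0))) C.out ∉ Acc) :
    ∃ B : ℕ, (B : ℝ) * 2 ^ (μ * k) ≤ 4 * (2 : ℝ) ^ (29 / 10 * μ : ℝ) *
        (Real.exp 1 * (2 * ((μ * k : ℕ) : ℝ) + 1)) ^ 4 * (2 * (μ * k)).factorial *
        (({L | ∃ g, ∃ w, ∃ f ∈ G, L = vi (ip w) C g ∘ A.a f} :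
          Set (X → K × (ℕ → Multiset K))).ncard : ℝ) ∧
      (Nat.card {ω : Equiv.Perm (Fin (μ * k) × Bool) × G //
          ∃ w, C.val (ip w (A.a ω.2.1 (S ω.1 (cRG blk j₀ ω.1)))) C.out ∈ Acc} : ℝ) ≤
        (B : ℝ) * Nat.card G := by
  classical
  have hVμ : Fintype.card (Fin (2 * μ)) = 2 * μ := Fintype.card_fin _
  have hV2 : 2 ≤ Fintype.card (Fin (2 * μ)) := by rw [hVμ]; omega
  have hone : ∀ π : Equiv.Perm (Fin (μ * k) × Bool), tr (RG blk π) (fun _ => 1) = 0 :=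
    fun π => tr_RG_one blk π
  have hGfin : Finite G := inferInstance
  let _ : Fintype G := Fintype.ofFinite G
  let _ := C.fin
  -- the views as a finite set
  obtain ⟨F, hF⟩ : ∃ F : Finset (X → K × (ℕ → Multiset K)),
      F = univ.image (fun p : (C.Gate × W) × G => vi (ip p.1.2) C p.1.1 ∘ A.a p.2.1) := ⟨_, rfl⟩
  have hFv : ({L | ∃ g, ∃ w, ∃ f ∈ G, L = vi (ip w) C g ∘ A.a f} :
      Set (X → K × (ℕ → Multiset K))) = ↑F := by
    rw [hF]
    ext L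
    rw [coe_image, Set.mem_image]
    constructor
    · rintro ⟨g, w, f, hf, rfl⟩
      exact ⟨((g, w), ⟨f, hf⟩), mem_coe.2 (mem_univ _), rfl⟩
    · rintro ⟨p, _, rfl⟩
      exact ⟨p.1.1, p.1.2, p.2.1, p.2.2, rfl⟩
  have hFcl : ∀ L ∈ F, ∀ f ∈ G, L ∘ A.a f ∈ F := by
    intro L hL f hf
    rw [hF, mem_image] at hL ⊢
    obtain ⟨p, _, rfl⟩ := hL
    refine ⟨(p.1, p.2 + ⟨f, hf⟩), mem_univ _, ?_⟩
    show vi (ip p.1.2) C p.1.1 ∘ A.a (p.2.1 + f) = (vi (ip p.1.2) C p.1.1 ∘ A.a p.2.1) ∘ A.a f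
    rw [A.add, Function.comp_assoc]
  rw [hFv, Set.ncard_coe_finset]
  obtain ⟨Γ, hΓ⟩ : ∃ Γ : Finset (Submodule (ZMod 2) (Fin (μ * k) → ZMod 2)),
      Γ = F.image (ZA A G e) := ⟨_, rfl⟩
  have hsum : ((∑ Z : {Z // Z ∈ Γ}, Nat.card (perp Z.1) : ℕ) : ℝ) ≤ (F.card : ℝ) := by
    have h1 : (∑ Z : {Z // Z ∈ Γ}, Nat.card (perp Z.1)) = ∑ Z ∈ Γ, Nat.card (perp Z) :=
      sum_coe_sort Γ (fun Z => Nat.card (perp Z))
    have h2 := sum_ZA A G e hlift F hFcl
    rw [h1, hΓ]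
    exact_mod_cast h2
  have hcount := count_bad blk hblk μ hμ0 hVμ (fun Z : {Z // Z ∈ Γ} => Z.1) (F.card : ℝ)
    (Nat.cast_nonneg _) hsum
  obtain ⟨B, hB⟩ : ∃ B : ℕ, B = Nat.card {π : Equiv.Perm (Fin (μ * k) × Bool) //
      ¬ ∀ Z : {Z // Z ∈ Γ}, Sep2 (RG blk π) (perp Z.1)} := ⟨_, rfl⟩
  rw [← hB] at hcount
  refine ⟨B, hcount, ?_⟩
  -- good graphs
  have hgood : ∀ π : Equiv.Perm (Fin (μ * k) × Bool),
      (∀ Z : {Z // Z ∈ Γ}, Sep2 (RG blk π) (perp Z.1)) → ∀ (f : G) (w : W),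
      C.val (ip w (A.a f.1 (S π (cRG blk j₀ π)))) C.out ∉ Acc := by
    intro π hπ f w hacc
    have hSep : ∀ g, Sep2 (RG blk π) (perp (ZA A G e (vi (ip w) C g))) := by
      intro g
      refine hπ ⟨ZA A G e (vi (ip w) C g), ?_⟩
      rw [hΓ]
      refine mem_image_of_mem _ ?_
      rw [hF, mem_image]
      refine ⟨((g, w), 0), mem_univ _, ?_⟩
      show vi (ip w) C g ∘ A.a (0 : Fin n → ZMod 2) = _
      rw [A.zero, Function.comp_id]
    have hgd : ∃ c, Good (RG blk π) ⊤ c := by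
      obtain ⟨c', hc'⟩ := exists_good2 _ (hone π) _ (hSep C.out)
      exact ⟨c', good_mono _ le_top hc'⟩
    have h1 := card_yA A G e (ip w) C hlift (RG blk π) (hone π) hV2 (S π) (hS π) (hloc w π) hSep
      Acc _ (cRG_good blk j₀ π hgd)
    have h2 : Nat.card {f : G // C.val (yA A G (ip w) (S π) f 0) C.out ∈ Acc} = 0 := by
      rw [Nat.card_eq_zero]
      left
      exact ⟨fun f => h0 w π f.1.1 f.1.2 f.2⟩
    rw [h2, Nat.card_eq_zero] at h1
    rcases h1 with h1 | h1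
    · exact h1.false ⟨f, hacc⟩
    · exact h1.not_finite inferInstance
  -- sums over the graphs
  have hsplit : ∀ P : Equiv.Perm (Fin (μ * k) × Bool) × G → Prop,
      Nat.card {ω // P ω} = ∑ π, Nat.card {f : G // P (π, f)} := by
    intro P
    rw [Nat.card_congr (Equiv.subtypeProdEquivSigmaSubtype (fun π f => P (π, f))), Nat.card_sigma]
  rw [hsplit]
  push_cast
  have h1 : ∀ π, (Nat.card {f : G // ∃ w, C.val (ip w (A.a f.1 (S π (cRG blk j₀ π)))) C.out ∈ Acc} :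
      ℝ) ≤ if ¬ ∀ Z : {Z // Z ∈ Γ}, Sep2 (RG blk π) (perp Z.1) then (Nat.card G : ℝ) else 0 := by
    intro π
    by_cases h : ∀ Z : {Z // Z ∈ Γ}, Sep2 (RG blk π) (perp Z.1)
    · rw [if_neg (not_not.2 h)]
      have h2 : Nat.card {f : G // ∃ w, C.val (ip w (A.a f.1 (S π (cRG blk j₀ π)))) C.out ∈ Acc} =
          0 := by
        rw [Nat.card_eq_zero]
        left
        refine ⟨fun f => ?_⟩
        obtain ⟨w, hw⟩ := f.2
        exact hgood π h f.1 w hw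
      rw [h2, Nat.cast_zero]
    · rw [if_pos h, Nat.card_eq_fintype_card, Nat.card_eq_fintype_card]
      exact_mod_cast Fintype.card_subtype_le _
  refine (sum_le_sum fun π _ => h1 π).trans (le_of_eq ?_)
  have h7 : B = (univ.filter (fun π : Equiv.Perm (Fin (μ * k) × Bool) =>
      ¬ ∀ Z : {Z // Z ∈ Γ}, Sep2 (RG blk π) (perp Z.1))).card := by
    rw [hB, Nat.card_eq_fintype_card, Fintype.card_subtype]
  rw [← sum_filter, sum_const, nsmul_eq_mul, h7]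

end Pool.Agent.T9h47.SY
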